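import Pool.Agent.K1H54.NU.Stm

/-!
Project NU: the truncated systems. Conservation of energy of the vector field, global existence and
the energy identity.
-/

open Set Filter Topology MeasureTheory
open scoped ENNReal NNReal

set_option autoImplicit false

namespace Pool.Agent.K1H63.NU

open Pool.Agent.K1H54.NU

section sums

variable {I : Type} (sh : I → ℕ) (ty : I → Bool) (ρ : ℕ → ℕ)

theorem fin_le (h : ∀ n b, {i | sh i = n ∧ ty i = b}.Finite) (N : ℕ) : {i | sh i ≤ N}.Finite := by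
  refine (Set.Finite.biUnion (Set.finite_Iic N)
    (fun n _ => Set.Finite.union (h n true) (h n false))).subset ?_
  intro i hi
  refine mem_biUnion (x := sh i) hi ?_
  rcases hb : ty i with _ | _
  · exact Or.inr ⟨rfl, hb⟩
  · exact Or.inl ⟨rfl, hb⟩

theorem ap_eq {b : Bool} {n : ℕ} (S : Finset I) (hS : ∀ i, sh i = n → i ∈ S) (z : I → ℝ) :
    ap sh ty ρ b n z = ∑ i ∈ S, fl sh ty ρ b n i * z i := by
  unfold ap
  refine tsum_eq_sum fun i hi => ?_
  unfold fl
  rw [if_neg fun h => hi (hS i h.1), zero_mul]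

theorem shell_sum {N : ℕ} (S : Finset I) (hS : ∀ i, i ∈ S ↔ sh i ≤ N) (z : I → ℝ) (A B : ℕ → ℝ) :
    ∑ i ∈ S, z i * ((√(ρ (sh i) : ℝ))⁻¹ * (if ty i = true then A (sh i) else B (sh i))) =
      ∑ n ∈ Finset.range (N + 1), (A n * ap sh ty ρ true n z + B n * ap sh ty ρ false n z) := by
  have h1 : ∀ n ∈ Finset.range (N + 1),
      A n * ap sh ty ρ true n z + B n * ap sh ty ρ false n z =
        ∑ i ∈ S, (A n * (fl sh ty ρ true n i * z i) + B n * (fl sh ty ρ false n i * z i)) := by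
    intro n hn
    have hn' : ∀ i, sh i = n → i ∈ S := by
      intro i hi
      rw [hS, hi]
      exact Nat.lt_succ_iff.1 (Finset.mem_range.1 hn)
    rw [ap_eq sh ty ρ S hn', ap_eq sh ty ρ S hn', Finset.mul_sum, Finset.mul_sum,
      ← Finset.sum_add_distrib]
  rw [Finset.sum_congr rfl h1, Finset.sum_comm]
  refine Finset.sum_congr rfl fun i hi => ?_
  rw [Finset.sum_eq_single (sh i)]
  · unfold fl
    rcases hb : ty i with _ | _ <;> simp <;> ring
  · intro n _ hn
    unfold fl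
    rw [if_neg fun h => hn h.1.symm, if_neg fun h => hn h.1.symm]
    ring
  · intro h
    exact absurd (Finset.mem_range.2 (Nat.lt_succ_of_le ((hS i).1 hi))) h

end sums

variable (G : GS)

open Classical in
/-- the finite set of coordinates in the shells `≤ N` -/
noncomputable def SS (N : ℕ) : Finset (G.I ⊕ G.J) :=
  (fin_le G.sh G.ty G.fin N).toFinset.disjSum (fin_le G.sh' G.ty' G.fin' N).toFinset

theorem mem_SS {N : ℕ} {i : G.I ⊕ G.J} : i ∈ SS G N ↔ G.s i ≤ N := by
  unfold SS GS.s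
  rcases i with i | j
  · simp
  · simp

/-- the energy of the vector field is conserved -/
theorem conserve {N : ℕ} {x : G.I ⊕ G.J → ℝ} (hx : ∀ i, N < G.s i → x i = 0) :
    ∑ i ∈ SS G N, x i * G.vf x i = 0 := by
  have hY : G.Y (N + 1) x = 0 := by
    unfold GS.Y ap
    refine (tsum_congr fun i => ?_).trans tsum_zero
    unfold fl
    split_ifs with h
    · have h2 := hx (Sum.inl i) (by change N < G.sh i; omega)
      simp [h2]
    · rw [zero_mul]
  have hP : G.P (N + 1) x = 0 := by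
    unfold GS.P ap
    refine (tsum_congr fun i => ?_).trans tsum_zero
    unfold fl
    split_ifs with h
    · have h2 := hx (Sum.inr i) (by change N < G.sh' i; omega)
      simp [h2]
    · rw [zero_mul]
  unfold SS
  rw [Finset.sum_disjSum]
  have e1 := shell_sum G.sh G.ty G.ρ (N := N) (fin_le G.sh G.ty G.fin N).toFinset
    (fun i => by simp) (fun i => x (Sum.inl i))
    (fun n => (if n = 0 then 0 else G.c (n - 1) * G.Z (n - 1) x ^ 2) - G.c n * G.Z n x ^ 2
        - G.ε * G.c n * (G.Y n x * G.Z n x))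
    (fun n => G.c n * (G.Z n x * (G.Y n x - G.Y (n + 1) x)) + G.ε * G.c n * G.Y n x ^ 2
        - G.r n * G.P n x ^ 2)
  have e2 := shell_sum G.sh' G.ty' G.ρ' (N := N) (fin_le G.sh' G.ty' G.fin' N).toFinset
    (fun i => by simp) (fun i => x (Sum.inr i))
    (fun n => G.r n * (G.P n x * G.Z n x + G.P (n + 1) x ^ 2)
        - (if n = 0 then 0 else G.r (n - 1) * (G.P n x * G.P (n - 1) x)))
    (fun _ => 0)
  have e1' : ∑ i ∈ (fin_le G.sh G.ty G.fin N).toFinset, x (Sum.inl i) * G.vf x (Sum.inl i) =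
      _ := e1
  have e2' : ∑ i ∈ (fin_le G.sh' G.ty' G.fin' N).toFinset, x (Sum.inr i) * G.vf x (Sum.inr i) =
      _ := e2
  rw [e1', e2', ← Finset.sum_add_distrib]
  have key : ∀ K : ℕ, ∑ n ∈ Finset.range (K + 1),
      (((if n = 0 then 0 else G.c (n - 1) * G.Z (n - 1) x ^ 2) - G.c n * G.Z n x ^ 2
        - G.ε * G.c n * (G.Y n x * G.Z n x)) * ap G.sh G.ty G.ρ true n (fun i => x (Sum.inl i))
        + (G.c n * (G.Z n x * (G.Y n x - G.Y (n + 1) x)) + G.ε * G.c n * G.Y n x ^ 2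
        - G.r n * G.P n x ^ 2) * ap G.sh G.ty G.ρ false n (fun i => x (Sum.inl i))
      + ((G.r n * (G.P n x * G.Z n x + G.P (n + 1) x ^ 2)
        - (if n = 0 then 0 else G.r (n - 1) * (G.P n x * G.P (n - 1) x))) *
          ap G.sh' G.ty' G.ρ' true n (fun i => x (Sum.inr i))
        + 0 * ap G.sh' G.ty' G.ρ' false n (fun i => x (Sum.inr i)))) =
      -(G.c K * G.Z K x ^ 2 * G.Y (K + 1) x - G.r K * G.P K x * G.P (K + 1) x ^ 2) := by
    intro K
    induction K with
    | zero =>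
      rw [Finset.sum_range_one]
      change ((if 0 = 0 then 0 else G.c (0 - 1) * G.Z (0 - 1) x ^ 2) - G.c 0 * G.Z 0 x ^ 2
        - G.ε * G.c 0 * (G.Y 0 x * G.Z 0 x)) * G.Y 0 x
        + (G.c 0 * (G.Z 0 x * (G.Y 0 x - G.Y (0 + 1) x)) + G.ε * G.c 0 * G.Y 0 x ^ 2
        - G.r 0 * G.P 0 x ^ 2) * G.Z 0 x
        + ((G.r 0 * (G.P 0 x * G.Z 0 x + G.P (0 + 1) x ^ 2)
        - (if 0 = 0 then 0 else G.r (0 - 1) * (G.P 0 x * G.P (0 - 1) x))) * G.P 0 x + 0 * _) = _
      simp only [if_true]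
      ring
    | succ K ih =>
      rw [Finset.sum_range_succ, ih]
      change _ + (((if K + 1 = 0 then 0 else G.c (K + 1 - 1) * G.Z (K + 1 - 1) x ^ 2)
        - G.c (K + 1) * G.Z (K + 1) x ^ 2
        - G.ε * G.c (K + 1) * (G.Y (K + 1) x * G.Z (K + 1) x)) * G.Y (K + 1) x
        + (G.c (K + 1) * (G.Z (K + 1) x * (G.Y (K + 1) x - G.Y (K + 1 + 1) x))
        + G.ε * G.c (K + 1) * G.Y (K + 1) x ^ 2
        - G.r (K + 1) * G.P (K + 1) x ^ 2) * G.Z (K + 1) x
        + ((G.r (K + 1) * (G.P (K + 1) x * G.Z (K + 1) x + G.P (K + 1 + 1) x ^ 2)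
        - (if K + 1 = 0 then 0 else G.r (K + 1 - 1) * (G.P (K + 1) x * G.P (K + 1 - 1) x)))
          * G.P (K + 1) x + 0 * _)) = _
      rw [if_neg (Nat.succ_ne_zero K), if_neg (Nat.succ_ne_zero K), Nat.add_sub_cancel]
      ring
  rw [key N, hY, hP]
  ring

/-! ### Global solutions -/

/-- global solutions of a bounded Lipschitz vector field -/
theorem global {E : Type} [NormedAddCommGroup E] [NormedSpace ℝ E] [CompleteSpace E] (v : E → E)
    (K L : ℝ≥0) (hK : LipschitzWith K v) (hL : ∀ x, ‖v x‖ ≤ L) (z0 : E) :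
    ∃ γ : ℝ → E, γ 0 = z0 ∧ ∀ s, 0 ≤ s → HasDerivWithinAt γ (v (γ s)) (Ici 0) s := by
  have hex : ∀ N : ℕ, ∃ α : ℝ → E, α 0 = z0 ∧
      ∀ t ∈ Icc (0 : ℝ) N, HasDerivWithinAt α (v (α t)) (Icc (0 : ℝ) N) t := by
    intro N
    have h0 : (0 : ℝ) ∈ Icc (0 : ℝ) N := ⟨le_refl _, Nat.cast_nonneg _⟩
    have hp : IsPicardLindelof (fun _ : ℝ => v) (⟨0, h0⟩ : Icc (0 : ℝ) N) z0 (L * N) 0 L K := by
      apply IsPicardLindelof.of_time_independent
      · intro x _; exact hL x
      · exact hK.lipschitzOnWith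
      · simp
    exact hp.exists_eq_forall_mem_Icc_hasDerivWithinAt₀
  choose α hα0 hα using hex
  have huniq : ∀ M N : ℕ, M ≤ N → EqOn (α M) (α N) (Icc (0 : ℝ) M) := by
    intro M N hMN
    have hMN' : (M : ℝ) ≤ N := by exact_mod_cast hMN
    have hsub : Icc (0 : ℝ) M ⊆ Icc (0 : ℝ) N := Icc_subset_Icc_right hMN'
    apply ODE_solution_unique (v := fun _ => v) (K := K) (fun _ => hK)
    · exact fun t ht => (hα M t ht).continuousWithinAt
    · intro t ht
      have h1 := hα M t ⟨ht.1, ht.2.le⟩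
      exact h1.mono_of_mem_nhdsWithin (Icc_mem_nhdsGE_of_mem ht)
    · exact fun t ht => ((hα N t (hsub ht)).mono hsub).continuousWithinAt
    · intro t ht
      have h1 := hα N t (hsub ⟨ht.1, ht.2.le⟩)
      exact h1.mono_of_mem_nhdsWithin (Icc_mem_nhdsGE_of_mem ⟨ht.1, ht.2.trans_le hMN'⟩)
    · rw [hα0, hα0]
  have heq : ∀ (M N : ℕ) (s : ℝ), 0 ≤ s → s ≤ M → s ≤ N → α M s = α N s := by
    intro M N s h0 hM hN
    rcases le_total M N with h | h
    · exact huniq M N h ⟨h0, hM⟩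
    · exact (huniq N M h ⟨h0, hN⟩).symm
  refine ⟨fun s => α (⌈s⌉₊ + 1) s, hα0 _, ?_⟩
  intro s hs
  set N := ⌈s⌉₊ + 1 with hN
  have hsN : s < N := by
    rw [hN]; push_cast
    have := Nat.le_ceil s
    linarith
  have h1 := hα N s ⟨hs, hsN.le⟩
  have hmem : Icc (0 : ℝ) N ∈ 𝓝[Ici 0] s := by
    have h2 : Iio (N : ℝ) ∈ 𝓝 s := Iio_mem_nhds hsN
    filter_upwards [self_mem_nhdsWithin, mem_nhdsWithin_of_mem_nhds h2] with t h3 h4
    exact ⟨h3, le_of_lt h4⟩
  have h2 : HasDerivWithinAt (α N) (v (α N s)) (Ici 0) s := h1.mono_of_mem_nhdsWithin hmem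
  refine h2.congr_of_eventuallyEq ?_ rfl
  filter_upwards [hmem] with t ht
  apply heq _ _ _ ht.1 _ ht.2
  push_cast
  have := Nat.le_ceil t
  linarith

/-- global solutions of a smooth dissipative vector field on a Euclidean space -/
theorem global_diss {κ : Type} [Fintype κ] (F : EuclideanSpace ℝ κ → EuclideanSpace ℝ κ)
    (hF : ContDiff ℝ 1 F) (hd : ∀ z, inner ℝ z (F z) ≤ 0) (z0 : EuclideanSpace ℝ κ) :
    ∃ γ : ℝ → EuclideanSpace ℝ κ, γ 0 = z0 ∧
      ∀ s, 0 ≤ s → HasDerivWithinAt γ (F (γ s)) (Ici 0) s := by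
  set R : ℝ := ‖z0‖ + 1 with hR
  have hR0 : 0 < R := by positivity
  let χ : ContDiffBump (0 : EuclideanSpace ℝ κ) := ⟨R, R + 1, hR0, by linarith⟩
  have hv : ContDiff ℝ 1 fun z => χ z • F z := (χ.contDiff (n := 1)).smul hF
  have hs : HasCompactSupport fun z => χ z • F z := χ.hasCompactSupport.smul_right
  obtain ⟨K, hK⟩ := hv.lipschitzWith_of_hasCompactSupport hs one_ne_zero
  obtain ⟨L, hL⟩ := hs.exists_bound_of_continuous hv.continuous
  obtain ⟨γ, h0, hγ⟩ := global _ K ⟨max L 0, le_max_right _ _⟩ hK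
    (fun x => (hL x).trans (le_max_left _ _)) z0
  have hcont : ContinuousOn γ (Ici 0) := fun t ht => (hγ t ht).continuousWithinAt
  have hder : ∀ t, 0 < t → HasDerivAt (fun s => ‖γ s‖ ^ 2) (2 * inner ℝ (γ t) (χ (γ t) • F (γ t))) t := by
    intro t ht
    exact ((hγ t ht.le).hasDerivAt (Ici_mem_nhds ht)).norm_sq
  have hanti : AntitoneOn (fun s => ‖γ s‖ ^ 2) (Ici 0) := by
    refine antitoneOn_of_deriv_nonpos (convex_Ici 0) (hcont.norm.pow 2) ?_ ?_
    · intro t ht
      rw [interior_Ici] at ht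
      exact (hder t ht).differentiableAt.differentiableWithinAt
    · intro t ht
      rw [interior_Ici] at ht
      rw [(hder t ht).deriv, inner_smul_right]
      have := mul_nonpos_of_nonneg_of_nonpos (χ.nonneg (x := γ t)) (hd (γ t))
      linarith
  refine ⟨γ, h0, fun s hs => ?_⟩
  have hle : ‖γ s‖ ^ 2 ≤ ‖z0‖ ^ 2 := by
    have := hanti (mem_Ici.2 le_rfl) (mem_Ici.2 hs) hs
    simpa [h0] using this
  have hle' : ‖γ s‖ ≤ ‖z0‖ := by
    exact (pow_le_pow_iff_left₀ (norm_nonneg _) (norm_nonneg _) two_ne_zero).1 hle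
  have hχ : χ (γ s) = 1 := by
    refine χ.one_of_mem_closedBall ?_
    rw [mem_closedBall_zero_iff]
    change ‖γ s‖ ≤ R
    linarith
  have := hγ s hs
  rwa [hχ, one_smul] at this

open Classical in
/-- extension by zero -/
noncomputable def ext (N : ℕ) (z : EuclideanSpace ℝ (SS G N)) (i : G.I ⊕ G.J) : ℝ :=
  if h : i ∈ SS G N then z ⟨i, h⟩ else 0

theorem ext_mem {N : ℕ} (z : EuclideanSpace ℝ (SS G N)) (i : SS G N) : ext G N z i = z i := by
  unfold ext
  rw [dif_pos i.2]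

theorem ext_not {N : ℕ} (z : EuclideanSpace ℝ (SS G N)) {i : G.I ⊕ G.J} (h : N < G.s i) :
    ext G N z i = 0 := by
  unfold ext
  rw [dif_neg]
  rw [mem_SS]
  omega

theorem ext_contDiff (N : ℕ) (i : G.I ⊕ G.J) : ContDiff ℝ 1 fun z => ext G N z i := by
  unfold ext
  split_ifs with h
  · exact (EuclideanSpace.proj (𝕜 := ℝ) (⟨i, h⟩ : SS G N)).contDiff
  · exact contDiff_const

theorem Y_contDiff (N n : ℕ) : ContDiff ℝ 1 fun z => G.Y n (ext G N z) := by
  have h : ∀ z, G.Y n (ext G N z) = ∑ i ∈ (fin_le G.sh G.ty G.fin n).toFinset,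
      fl G.sh G.ty G.ρ true n i * ext G N z (Sum.inl i) := by
    intro z
    exact ap_eq _ _ _ _ (fun i hi => by simp [hi]) _
  simp only [h]
  exact ContDiff.sum fun i _ => contDiff_const.mul (ext_contDiff G N _)

theorem Z_contDiff (N n : ℕ) : ContDiff ℝ 1 fun z => G.Z n (ext G N z) := by
  have h : ∀ z, G.Z n (ext G N z) = ∑ i ∈ (fin_le G.sh G.ty G.fin n).toFinset,
      fl G.sh G.ty G.ρ false n i * ext G N z (Sum.inl i) := by
    intro z
    exact ap_eq _ _ _ _ (fun i hi => by simp [hi]) _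
  simp only [h]
  exact ContDiff.sum fun i _ => contDiff_const.mul (ext_contDiff G N _)

theorem P_contDiff (N n : ℕ) : ContDiff ℝ 1 fun z => G.P n (ext G N z) := by
  have h : ∀ z, G.P n (ext G N z) = ∑ i ∈ (fin_le G.sh' G.ty' G.fin' n).toFinset,
      fl G.sh' G.ty' G.ρ' true n i * ext G N z (Sum.inr i) := by
    intro z
    exact ap_eq _ _ _ _ (fun i hi => by simp [hi]) _
  simp only [h]
  exact ContDiff.sum fun i _ => contDiff_const.mul (ext_contDiff G N _)

theorem vf_contDiff (N : ℕ) (i : G.I ⊕ G.J) : ContDiff ℝ 1 fun z => G.vf (ext G N z) i := by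
  have hY := Y_contDiff G N
  have hZ := Z_contDiff G N
  have hP := P_contDiff G N
  rcases i with i | j
  · change ContDiff ℝ 1 fun z => (√(G.ρ (G.sh i) : ℝ))⁻¹ * (if G.ty i = true then
      (if G.sh i = 0 then 0 else G.c (G.sh i - 1) * G.Z (G.sh i - 1) (ext G N z) ^ 2)
        - G.c (G.sh i) * G.Z (G.sh i) (ext G N z) ^ 2
        - G.ε * G.c (G.sh i) * (G.Y (G.sh i) (ext G N z) * G.Z (G.sh i) (ext G N z))
      else G.c (G.sh i) * (G.Z (G.sh i) (ext G N z) *
          (G.Y (G.sh i) (ext G N z) - G.Y (G.sh i + 1) (ext G N z)))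
        + G.ε * G.c (G.sh i) * G.Y (G.sh i) (ext G N z) ^ 2
        - G.r (G.sh i) * G.P (G.sh i) (ext G N z) ^ 2)
    refine contDiff_const.mul ?_
    split_ifs
    · exact (contDiff_const.sub (contDiff_const.mul ((hZ _).pow 2))).sub
        (contDiff_const.mul ((hY _).mul (hZ _)))
    · exact ((contDiff_const.mul ((hZ _).pow 2)).sub (contDiff_const.mul ((hZ _).pow 2))).sub
        (contDiff_const.mul ((hY _).mul (hZ _)))
    · exact ((contDiff_const.mul ((hZ _).mul ((hY _).sub (hY _)))).add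
        (contDiff_const.mul ((hY _).pow 2))).sub (contDiff_const.mul ((hP _).pow 2))
  · change ContDiff ℝ 1 fun z => (√(G.ρ' (G.sh' j) : ℝ))⁻¹ * (if G.ty' j = true then
      G.r (G.sh' j) * (G.P (G.sh' j) (ext G N z) * G.Z (G.sh' j) (ext G N z)
          + G.P (G.sh' j + 1) (ext G N z) ^ 2)
        - (if G.sh' j = 0 then 0
            else G.r (G.sh' j - 1) * (G.P (G.sh' j) (ext G N z) * G.P (G.sh' j - 1) (ext G N z)))
      else 0)
    refine contDiff_const.mul ?_
    split_ifs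
    · exact (contDiff_const.mul (((hP _).mul (hZ _)).add ((hP _).pow 2))).sub contDiff_const
    · exact (contDiff_const.mul (((hP _).mul (hZ _)).add ((hP _).pow 2))).sub
        (contDiff_const.mul ((hP _).mul (hP _)))
    · exact contDiff_const

theorem t_TREX : S_TREX := by
  intro G N x₀ hx₀
  let F : EuclideanSpace ℝ (SS G N) → EuclideanSpace ℝ (SS G N) := fun z =>
    WithLp.toLp 2 fun i => -(G.D i * z i) + G.vf (ext G N z) i
  have hF : ContDiff ℝ 1 F := by
    rw [contDiff_euclidean]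
    intro i
    exact ((contDiff_const.mul (EuclideanSpace.proj (𝕜 := ℝ) i).contDiff).neg).add
      (vf_contDiff G N i)
  have hd : ∀ z, inner ℝ z (F z) ≤ 0 := by
    intro z
    have h1 : inner ℝ z (F z) = ∑ i : SS G N, (-(G.D i * z i ^ 2) +
        ext G N z i * G.vf (ext G N z) i) := by
      rw [PiLp.inner_apply]
      refine Finset.sum_congr rfl fun i _ => ?_
      rw [ext_mem]
      simp [F]
      ring
    have h2 : ∑ i : SS G N, ext G N z i * G.vf (ext G N z) i = 0 := by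
      rw [Finset.sum_coe_sort (SS G N) fun i => ext G N z i * G.vf (ext G N z) i]
      exact conserve G fun i hi => ext_not G z hi
    rw [h1, Finset.sum_add_distrib, h2, add_zero]
    refine Finset.sum_nonpos fun i _ => ?_
    have hD : 0 ≤ G.D i := by
      rcases i with ⟨i | j, _⟩
      · exact G.d0 i
      · exact G.d0' j
    have := mul_nonneg hD (sq_nonneg (z i))
    linarith
  obtain ⟨γ, h0, hγ⟩ := global_diss F hF hd (WithLp.toLp 2 fun i => x₀ i)
  refine ⟨fun t => ext G N (γ t), ?_, ?_, ?_⟩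
  · funext i
    by_cases hi : i ∈ SS G N
    · change ext G N (γ 0) i = x₀ i
      rw [h0]
      exact ext_mem G _ ⟨i, hi⟩
    · rw [mem_SS, not_le] at hi
      change ext G N (γ 0) i = x₀ i
      rw [ext_not G _ hi, hx₀ i hi]
  · intro t i hi
    exact ext_not G _ hi
  · intro i hi t ht
    have hm : i ∈ SS G N := (mem_SS G).2 hi
    have h1 := (EuclideanSpace.proj (𝕜 := ℝ) (⟨i, hm⟩ : SS G N)).hasFDerivAt.comp_hasDerivWithinAt t
      (hγ t ht)
    have h2 : (fun τ => ext G N (γ τ) i) = (EuclideanSpace.proj (𝕜 := ℝ) (⟨i, hm⟩ : SS G N)) ∘ γ := by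
      funext τ
      exact ext_mem G _ ⟨i, hm⟩
    rw [h2]
    refine h1.congr_deriv ?_
    have h3 := ext_mem G (γ t) ⟨i, hm⟩
    simp only at h3
    rw [h3]
    rfl

end Pool.Agent.K1H63.NU
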