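import Pool.Agent.K1H63.NU.TREX

/-!
Project NU: the energy identity of the truncated systems.
-/

open Set Filter Topology MeasureTheory
open scoped ENNReal NNReal

set_option autoImplicit false

namespace Pool.Agent.K1H63.NU

open Pool.Agent.K1H54.NU

variable (G : GS)

theorem D_nonneg (i : G.I ⊕ G.J) : 0 ≤ G.D i := by
  rcases i with i | j
  · exact G.d0 i
  · exact G.d0' j

theorem en_eq {N : ℕ} {x : G.I ⊕ G.J → ℝ} (hx : ∀ i, N < G.s i → x i = 0) :
    G.en x = ENNReal.ofReal (∑ i ∈ SS G N, x i ^ 2) := by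
  unfold GS.en
  rw [ENNReal.ofReal_sum_of_nonneg fun i _ => sq_nonneg _]
  refine tsum_eq_sum fun i hi => ?_
  rw [mem_SS, not_le] at hi
  rw [hx i hi]
  simp

theorem ds_eq {N : ℕ} {x : G.I ⊕ G.J → ℝ} (hx : ∀ i, N < G.s i → x i = 0) :
    G.ds x = ENNReal.ofReal (∑ i ∈ SS G N, G.D i * x i ^ 2) := by
  unfold GS.ds
  rw [ENNReal.ofReal_sum_of_nonneg fun i _ => mul_nonneg (D_nonneg G i) (sq_nonneg _)]
  refine tsum_eq_sum fun i hi => ?_
  rw [mem_SS, not_le] at hi
  rw [hx i hi]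
  simp

theorem t_TREN : S_TREN := by
  intro G N x hx s t hs hst
  have hc : ∀ i ∈ SS G N, ContinuousOn (fun τ => x τ i) (Icc s t) := fun i hi τ hτ =>
    ((hx.ode i ((mem_SS G).1 hi) τ (hs.trans hτ.1)).continuousWithinAt).mono fun u hu =>
      hs.trans hu.1
  have hcD : ContinuousOn (fun τ => ∑ i ∈ SS G N, G.D i * x τ i ^ 2) (Icc s t) :=
    continuousOn_finsetSum _ fun i hi => continuousOn_const.mul ((hc i hi).pow 2)
  have hcE : ContinuousOn (fun τ => ∑ i ∈ SS G N, x τ i ^ 2) (Icc s t) :=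
    continuousOn_finsetSum _ fun i hi => (hc i hi).pow 2
  have hder : ∀ τ ∈ Ioo s t, HasDerivAt (fun τ => ∑ i ∈ SS G N, x τ i ^ 2)
      (-(2 * ∑ i ∈ SS G N, G.D i * x τ i ^ 2)) τ := by
    intro τ hτ
    have h0 : 0 < τ := lt_of_le_of_lt hs hτ.1
    have h1 : HasDerivAt (fun τ => ∑ i ∈ SS G N, x τ i ^ 2)
        (∑ i ∈ SS G N, (2 : ℕ) * x τ i ^ (2 - 1) * (-(G.D i * x τ i) + G.vf (x τ) i)) τ := by
      have := HasDerivAt.fun_sum (u := SS G N) (A := fun i τ => x τ i ^ 2)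
        (A' := fun i => (2 : ℕ) * x τ i ^ (2 - 1) * (-(G.D i * x τ i) + G.vf (x τ) i))
        (x := τ) fun i hi =>
          ((hx.ode i ((mem_SS G).1 hi) τ h0.le).hasDerivAt (Ici_mem_nhds h0)).pow 2
      exact this
    refine h1.congr_deriv ?_
    have h2 := conserve G (N := N) (x := x τ) fun i hi => hx.out τ i hi
    have h3 : ∀ i ∈ SS G N, (2 : ℕ) * x τ i ^ (2 - 1) * (-(G.D i * x τ i) + G.vf (x τ) i) =
        -(2 * (G.D i * x τ i ^ 2)) + 2 * (x τ i * G.vf (x τ) i) := by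
      intro i _
      push_cast
      ring
    rw [Finset.sum_congr rfl h3, Finset.sum_add_distrib, ← Finset.mul_sum, h2, mul_zero, add_zero,
      Finset.sum_neg_distrib, ← Finset.mul_sum]
  have hint : IntervalIntegrable (fun τ => -(2 * ∑ i ∈ SS G N, G.D i * x τ i ^ 2)) volume s t :=
    ((continuousOn_const.mul hcD).neg).intervalIntegrable_of_Icc hst
  have hftc := intervalIntegral.integral_eq_sub_of_hasDerivAt_of_le hst hcE hder hint
  rw [intervalIntegral.integral_of_le hst] at hftc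
  have hint2 : IntegrableOn (fun τ => ∑ i ∈ SS G N, G.D i * x τ i ^ 2) (Ioc s t) volume :=
    (hcD.integrableOn_Icc).mono_set Ioc_subset_Icc_self
  rw [integral_neg, integral_const_mul] at hftc
  have hds : ∫⁻ τ in Ioc s t, G.ds (x τ) =
      ENNReal.ofReal (∫ τ in Ioc s t, ∑ i ∈ SS G N, G.D i * x τ i ^ 2) := by
    rw [ofReal_integral_eq_lintegral_ofReal hint2
      (Eventually.of_forall fun τ => Finset.sum_nonneg fun i _ =>
        mul_nonneg (D_nonneg G i) (sq_nonneg _))]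
    exact lintegral_congr fun τ => ds_eq G fun i hi => hx.out τ i hi
  have hI : 0 ≤ ∫ τ in Ioc s t, ∑ i ∈ SS G N, G.D i * x τ i ^ 2 :=
    integral_nonneg fun τ => Finset.sum_nonneg fun i _ =>
      mul_nonneg (D_nonneg G i) (sq_nonneg _)
  rw [en_eq G (N := N) fun i hi => hx.out t i hi, en_eq G (N := N) fun i hi => hx.out s i hi, hds]
  have h2 : (2 : ℝ≥0∞) = ENNReal.ofReal 2 := by simp
  rw [h2, ← ENNReal.ofReal_mul (by norm_num), ← ENNReal.ofReal_add
    (Finset.sum_nonneg fun i _ => sq_nonneg _) (by positivity)]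
  congr 1
  linarith

end Pool.Agent.K1H63.NU
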