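import Pool.Agent.K1H63.NU.Gate
import Pool.Agent.K1H54.NU.Stm2

/-! The bounds of the perturbation with the gates of the inverse cascade. -/

open Set Filter Topology MeasureTheory

set_option autoImplicit false

namespace Pool.Agent.K1H63.NU

open Pool.Agent.Y5 Pool.Agent.Y5.D Pool.Agent.Y5.E Pool.Agent.K1H54.LO Pool.Agent.K1H54.L2
open Pool.Agent.K1H30.OP2
open Pool.Agent.K1H30.OP (l2_nonneg h1_nonneg A1_nonneg rap_add ot_add pair_add trm)
open Pool.Agent.K1H54.NU (bR bN MM GS S_OP3)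

section

variable {I : Type} {sh : I → ℕ} {ty : I → Bool} {ρ : ℕ → ℕ} {g : I → Fam}
  {S : I → Finset Z3} {R : I → ℝ} {N : ℕ → ℝ} {s N₁ δ c₀ lam : ℝ}

theorem co_gen (h : MS sh ty ρ g S R N s N₁ δ c₀ lam) (hδ : 0 ≤ δ) (b : Bool) (n : ℕ) {x B : ℝ}
    (hB : 0 ≤ B) (hx : ∀ i, sh i = n → x ≤ B * (√(ρ n : ℝ) * √((S i).card : ℝ))) (k : Z3) :
    x * ‖Sy g (fv sh ty ρ b n) k‖ ≤ B := by
  have hm := md_of h
  by_cases hk : k ∈ TT h.shl S b n
  · obtain ⟨i, hi, hk⟩ := mem_TT.1 hk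
    have hc := hm.card i
    have hρ : (0 : ℝ) < ρ n := by exact_mod_cast h.shl.pos n
    have h1 := hx i hi.1
    have h2 : 0 < √(ρ n : ℝ) * √((S i).card : ℝ) :=
      mul_pos (Real.sqrt_pos.2 hρ) (Real.sqrt_pos.2 hc)
    rw [hm.Sy_mem _ hk, fv_pos hi, norm_smul, hm.norm hk, norm_inv,
      Real.norm_of_nonneg (Real.sqrt_nonneg _), ← mul_inv, ← div_eq_mul_inv, div_le_iff₀ h2]
    exact h1
  · have h3 : Sy g (fv sh ty ρ b n) k = 0 := (pp_of h hδ b).supp n k hk
    rw [h3, norm_zero, mul_zero]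
    exact hB

theorem pp_gen (h : MS sh ty ρ g S R N s N₁ δ c₀ lam) (hδ : 0 ≤ δ) (b : Bool) {δ' : ℝ}
    {c : ℕ → ℝ} (hc0 : ∀ n, 0 ≤ c n)
    (hco : ∀ n k, c n * ‖Sy g (fv sh ty ρ b n) k‖ ≤ δ' * N n ^ s) :
    PP δ' s c N (TT h.shl S b) (fun n => Sy g (fv sh ty ρ b n)) :=
  let p := pp_of h hδ b
  ⟨p.supp, p.ot, p.nrm, p.disj, p.size, p.N1, hco, hc0⟩

theorem pp_zero (h : MS sh ty ρ g S R N s N₁ δ c₀ lam) (hδ : 0 ≤ δ) (b : Bool) {δ' : ℝ}
    (hδ' : 0 ≤ δ') :
    PP δ' s (fun _ => 0) N (TT h.shl S b) (fun n => Sy g (fv sh ty ρ b n)) :=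
  pp_gen h hδ b (fun _ => le_rfl) fun n k => by
    rw [zero_mul]
    have := h.N1 n
    positivity

end

variable {G : GS} {g : G.I → Fam} {S : G.I → Finset Z3} {R : G.I → ℝ} {N : ℕ → ℝ}
  {g' : G.J → Fam} {S' : G.J → Finset Z3} {R' : G.J → ℝ} {N' : ℕ → ℝ} {s N₁ δ c₀ lam X : ℝ}

theorem mdu (h : MM G g S R N g' S' R' N' s N₁ δ c₀ lam X) :
    Md (Sum.elim g g') (Sum.elim S S') (Sum.elim R R') where
  ot := by
    rintro (i | j)
    · exact h.m1.ot i
    · exact h.m2.ot j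
  supp := by
    rintro (i | j) k hk
    · exact h.m1.supp i k hk
    · exact h.m2.supp j k hk
  flat := by
    rintro (i | j) k hk
    · exact h.m1.flat i k hk
    · exact h.m2.flat j k hk
  disj := by
    rintro (i | i) (j | j) hij
    · exact h.m1.disj i j fun hc => hij (by rw [hc])
    · exact h.dis i j
    · exact (h.dis j i).symm
    · exact h.m2.disj i j fun hc => hij (by rw [hc])
  ne := by
    rintro (i | j)
    · exact h.m1.ne i
    · exact h.m2.ne j
  sph := by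
    rintro (i | j) k hk
    · exact h.m1.sph i k hk
    · exact h.m2.sph j k hk

theorem supu (h : MM G g S R N g' S' R' N' s N₁ δ c₀ lam X) : ∀ i y,
    ‖fieldOf (Sum.elim g g' i) y‖ ≤
      δ * Sum.elim R R' i ^ (s - 1) * √((Sum.elim S S' i).card : ℝ) := by
  rintro (i | j) y
  · exact h.m1.sup i y
  · exact h.m2.sup j y

theorem bigu (h : MM G g S R N g' S' R' N' s N₁ δ c₀ lam X) : ∀ i, N₁ ≤ Sum.elim R R' i := by
  rintro (i | j)
  · exact h.m1.big i
  · exact h.m2.big j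

/-- `N ^ s ≤ N` -/
theorem rp_le {x : ℝ} (hx : 1 ≤ x) (hs : s ≤ 1) : x ^ s ≤ x := by
  calc x ^ s ≤ x ^ (1 : ℝ) := Real.rpow_le_rpow_of_exponent_le hx hs
    _ = _ := Real.rpow_one _

theorem ppπ (h : MM G g S R N g' S' R' N' s N₁ δ c₀ lam X) (hδ : 0 ≤ δ) :
    PP (δ / X) s G.r N' (TT h.m2.shl S' true)
      (fun n => Sy g' (fv G.sh' G.ty' G.ρ' true n)) := by
  have hX : 0 < X := by linarith [h.X1]
  refine pp_gen h.m2 hδ true (fun n => (h.rp n).le) fun n k => ?_
  have hN := h.m2.N1 n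
  refine co_gen h.m2 hδ true n (by positivity) (fun j hj => ?_) k
  subst hj
  exact h.rc j

theorem gate1 (h : MM G g S R N g' S' R' N' s N₁ δ c₀ lam X) (hδ : 0 ≤ δ) (hs : s ≤ 1) {C : ℝ}
    (hC : ∀ i, G.r (G.sh i) ≤ C * (N (G.sh i) * (√(G.ρ (G.sh i) : ℝ) * √((S i).card : ℝ)))) :
    Gate (δ / X) s X (|C| + δ / X) G.r N' N N' (TT h.m2.shl S' true) (TT h.m1.shl S false)
      (TT h.m2.shl S' true) (fun n => Sy g' (fv G.sh' G.ty' G.ρ' true n))
      (fun n => Sy g (fv G.sh G.ty G.ρ false n))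
      (fun n => Sy g' (fv G.sh' G.ty' G.ρ' true n)) := by
  have hX : 0 < X := by linarith [h.X1]
  have hd : 0 ≤ δ / X := by positivity
  refine ⟨ppπ h hδ, pp_zero h.m1 hδ false hd, pp_zero h.m2 hδ true hd, hX.le, h.n2, fun n => ?_,
    h.n1, fun _ => le_rfl, h.m1.mono, h.m2.mono, by positivity, fun n k => ?_, fun n k => ?_⟩
  · have hN := h.m2.N1 n
    exact le_mul_of_one_le_left (by linarith) h.X1
  · have hN := h.m1.N1 n
    refine co_gen h.m1 hδ false n (by positivity) (fun i hi => ?_) k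
    subst hi
    refine (hC i).trans ?_
    have h1 : 0 ≤ √(G.ρ (G.sh i) : ℝ) * √((S i).card : ℝ) := by positivity
    have h2 : C ≤ |C| + δ / X := by linarith [le_abs_self C]
    calc C * (N (G.sh i) * (√(G.ρ (G.sh i) : ℝ) * √((S i).card : ℝ)))
        ≤ (|C| + δ / X) * (N (G.sh i) * (√(G.ρ (G.sh i) : ℝ) * √((S i).card : ℝ))) := by
          gcongr
      _ = _ := by ring
  · have hN := h.m2.N1 n
    refine ((ppπ h hδ).coef n k).trans ?_
    have h2 : 0 ≤ |C| := abs_nonneg C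
    have h3 := rp_le hN hs
    calc δ / X * N' n ^ s ≤ (|C| + δ / X) * N' n := by
          gcongr
          linarith

theorem gate2 (h : MM G g S R N g' S' R' N' s N₁ δ c₀ lam X) (hδ : 0 ≤ δ) (hs : s ≤ 1) :
    Gate (δ / X) s X (δ / X) G.r (fun n => N' (n + 1)) (fun n => N' (n + 1)) N'
      (fun n => TT h.m2.shl S' true (n + 1)) (fun n => TT h.m2.shl S' true (n + 1))
      (TT h.m2.shl S' true) (fun n => Sy g' (fv G.sh' G.ty' G.ρ' true (n + 1)))
      (fun n => Sy g' (fv G.sh' G.ty' G.ρ' true (n + 1)))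
      (fun n => Sy g' (fv G.sh' G.ty' G.ρ' true n)) := by
  have hX : 0 < X := by linarith [h.X1]
  have hd : 0 ≤ δ / X := by positivity
  have hp := ppπ h hδ
  have hp' := hp.shift
  have hz := pp_zero h.m2 hδ true hd
  have hco : ∀ n k, G.r n * ‖Sy g' (fv G.sh' G.ty' G.ρ' true (n + 1)) k‖ ≤
      δ / X * N' (n + 1) ^ s := fun n k =>
    (mul_le_mul_of_nonneg_right (h.rm n) (norm_nonneg _)).trans (hp'.coef n k)
  refine ⟨⟨hp'.supp, hp'.ot, hp'.nrm, hp'.disj, hp'.size, hp'.N1, hco, fun n => (h.rp n).le⟩,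
    hz.shift, hz, hX.le, fun n => ?_, h.n3, fun _ => le_rfl, h.m2.mono,
    fun n => h.m2.mono (n + 1), h.m2.mono, hd, fun n k => ?_, fun n k => ?_⟩
  · have hN := h.m2.N1 (n + 1)
    exact le_mul_of_one_le_left (by linarith) h.X1
  · refine (hco n k).trans ?_
    exact mul_le_mul_of_nonneg_left (rp_le (h.m2.N1 (n + 1)) hs) hd
  · refine (hp.coef n k).trans ?_
    exact mul_le_mul_of_nonneg_left (rp_le (h.m2.N1 n) hs) hd

theorem bR_eq (r : ℕ → ℝ) (χ π : ℕ → Fam) (V W Z : Fam)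
    (h1 : Summable (gtm r π χ π V W Z))
    (h2 : Summable (gtm r (fun n => π (n + 1)) (fun n => π (n + 1)) π V W Z)) :
    bR r χ π V W Z = ∑' n, gtm r π χ π V W Z n +
      ∑' n, gtm r (fun n => π (n + 1)) (fun n => π (n + 1)) π V W Z n := by
  rw [← h1.tsum_add h2]
  unfold bR
  refine tsum_congr fun n => ?_
  unfold gtm
  ring

theorem op3 (hT : S_TRI) (hs0 : 1 / 2 < s) (hs1 : s < 1) (hδ : 0 < δ) (hε1 : G.ε ≤ 1)
    (h : MM G g S R N g' S' R' N' s N₁ (δ / 100) c₀ lam X)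
    (hC : ∃ C, ∀ i, G.r (G.sh i) ≤
      C * (N (G.sh i) * (√(G.ρ (G.sh i) : ℝ) * √((S i).card : ℝ)))) :
    (∃ C, FPert s δ C (fun k => N₁ ≤ ‖vec k‖) (bN G lam c₀ g g')) ∧
    ∀ V W Z, OT V → Rap V → OT W → Rap W → OT Z → Rap Z →
      |bN G lam c₀ g g' V W Z| ≤ δ * (A1 (s - 1) V * h1 W) * l2 Z := by
  have hε := G.ε0
  have hX : 0 < X := by linarith [h.X1]
  have hd : 0 ≤ δ / 100 := by positivity
  have hd' : 0 ≤ δ / 100 / X := by positivity
  have hm := mdu h
  have hb := bigu h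
  have h2 := p2_of h.m1 hd
  obtain ⟨C, hC⟩ := hC
  have k1 := gate1 h hd hs1.le hC
  have k2 := gate2 h hd hs1.le
  have hp := Real.pi_pos
  have hp4 := Real.pi_lt_d2
  have split : ∀ V W Z, Rap V → Rap W → Rap Z → _ := fun V W Z hV hW hZ =>
    bR_eq G.r (fun n => Sy g (fv G.sh G.ty G.ρ false n))
      (fun n => Sy g' (fv G.sh' G.ty' G.ρ' true n)) V W Z
      (k1.small hd' hs0.le hs1.le hV hW hZ).1 (k2.small hd' hs0.le hs1.le hV hW hZ).1
  -- the main bound
  have main : ∀ V W Z, OT V → Rap V → OT W → Rap W → OT Z → Rap Z →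
      |bN G lam c₀ g g' V W Z| ≤ δ * (A1 (s - 1) V * h1 W) * l2 Z := by
    intro V W Z hV hVr hW hWr hZ hZr
    have e1 := bg_small hT hm (M := δ / 100 * A1 (s - 1) V)
      (mul_nonneg hd (A1_nonneg _ _)) (fun y => hm.Pg_sup hVr hd (by linarith) (supu h) y)
      hVr hW hWr hZ hZr
    have e2 := (h2.small hd hε hε1 hs0.le hs1.le hVr hWr hZr).2
    rw [← bT_eq] at e2
    have e3 := (k1.small hd' hs0.le hs1.le hVr hWr hZr).2
    have e4 := (k2.small hd' hs0.le hs1.le hVr hWr hZr).2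
    unfold bN
    rw [split V W Z hVr hWr hZr]
    refine (abs_add_le _ _).trans ((add_le_add ((abs_add_le _ _).trans (add_le_add e1 e2))
      ((abs_add_le _ _).trans (add_le_add e3 e4))).trans ?_)
    have n1 := A1_nonneg (s - 1) V
    have n2 := h1_nonneg W
    have n3 := l2_nonneg Z
    have n4 : 0 ≤ δ * (A1 (s - 1) V * (h1 W * l2 Z)) := by positivity
    have e5 : X * (3 / 2 * (δ / 100 / X) * A1 (s - 1) V) = 3 / 2 * (δ / 100) * A1 (s - 1) V := by
      field_simp
    rw [e5]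
    calc _ = ((6 * Real.pi + 15) / 100) * (δ * (A1 (s - 1) V * (h1 W * l2 Z))) := by ring
      _ ≤ 1 * (δ * (A1 (s - 1) V * (h1 W * l2 Z))) := by
          refine mul_le_mul_of_nonneg_right ?_ n4
          linarith
      _ = _ := by ring
  refine ⟨⟨6 * Real.pi + 6 * (δ / 100) + 2 * (|C| + δ / 100 / X) + 2 * (δ / 100 / X),
    ?_, ?_, ?_, ?_, ?_, ?_, ?_, ?_⟩, main⟩
  · -- range
    intro V W hV hVr hW hWr
    obtain ⟨G1, g1, g2, g3⟩ := bg_range (V := V) (W := W) hm hVr hWr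
    obtain ⟨Y, hY⟩ := h.m1.poly
    obtain ⟨Y', hY'⟩ := h.m1.grow
    have hlam : 0 < lam := by linarith [h.m1.lam1]
    have hc0 := h.m1.c0
    have hc : ∀ n, c₀ * lam ^ n ≤ (c₀ * |Y|) * N n ^ 4 := by
      intro n
      have hN := h.m1.N1 n
      calc c₀ * lam ^ n ≤ c₀ * (Y * N n ^ 4) := by
            gcongr
            exact hY n
        _ ≤ c₀ * (|Y| * N n ^ 4) := by
            gcongr
            exact le_abs_self Y
        _ = _ := by ring
    have hQ : ∀ n, N (n + 1) ≤ (|Y'| * lam * |Y|) * N n ^ 4 := by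
      intro n
      have hN := h.m1.N1 n
      calc N (n + 1) ≤ Y' * lam ^ (n + 1) := hY' (n + 1)
        _ ≤ |Y'| * lam ^ (n + 1) := by
            gcongr
            exact le_abs_self Y'
        _ = |Y'| * lam * lam ^ n := by ring
        _ ≤ |Y'| * lam * (Y * N n ^ 4) := by
            gcongr
            exact hY n
        _ ≤ |Y'| * lam * (|Y| * N n ^ 4) := by
            gcongr
            exact le_abs_self Y
        _ = _ := by ring
    obtain ⟨G2, g1', g2', g3'⟩ := h2.range (V := V) (W := W) hε hε1 (by positivity) hc hQ hVr hWr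
    obtain ⟨G3, a1, a2, a3⟩ := k1.range hd' hs1.le hVr hWr
    obtain ⟨G4, b1, b2, b3⟩ := k2.range hd' hs1.le hVr hWr
    refine ⟨fun k => (fun k => G1 k + G2 k) k + (fun k => G3 k + G4 k) k,
      ot_add (ot_add g1 g1') (ot_add a1 b1), rap_add (rap_add g2 g2') (rap_add a2 b2),
      fun Z hZ hZr => ?_⟩
    unfold bN
    rw [pair_add (rap_add g2 g2') (rap_add a2 b2) hZr, pair_add g2 g2' hZr,
      pair_add a2 b2 hZr, ← g3 Z hZ hZr, ← g3' Z hZ hZr, ← a3 Z hZ hZr, ← b3 Z hZ hZr, bT_eq,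
      split V W Z hVr hWr hZr]
  · -- add1
    intro V V' W Z hV hVr hV' hVr' hW hWr hZ hZr
    have s1 := (h2.small (V := V) hd hε hε1 hs0.le hs1.le hVr hWr hZr).1
    have s2 := (h2.small (V := V') hd hε hε1 hs0.le hs1.le hVr' hWr hZr).1
    unfold bN
    rw [bg_add hm hVr hVr' hWr hZr, bT_eq, bT_eq, bT_eq, split V W Z hVr hWr hZr,
      split V' W Z hVr' hWr hZr, split _ W Z (rap_add hVr hVr') hWr hZr,
      k1.add hd' hs0.le hs1.le hVr hVr' hWr hZr, k2.add hd' hs0.le hs1.le hVr hVr' hWr hZr]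
    have e : (∑' n, trm (fun n => c₀ * lam ^ n) G.ε
        (fun n => pair (fun k => V k + V' k) (Sy g (fv G.sh G.ty G.ρ true n)))
        (fun n => pair (fun k => V k + V' k) (Sy g (fv G.sh G.ty G.ρ false n)))
        (fun n => pair W (Sy g (fv G.sh G.ty G.ρ true n)))
        (fun n => pair W (Sy g (fv G.sh G.ty G.ρ false n)))
        (fun n => pair Z (Sy g (fv G.sh G.ty G.ρ true n)))
        (fun n => pair Z (Sy g (fv G.sh G.ty G.ρ false n))) n) = _ :=
      (tsum_congr fun n => by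
        unfold trm
        beta_reduce
        rw [h2.p.add, h2.q.add]
        ring).trans (s1.tsum_add s2)
    rw [e]
    ring
  · -- smul1
    intro a V W Z hV hVr hW hWr hZ hZr
    have hVa : Rap (fun k => a • V k) := by
      intro m
      obtain ⟨M, hM⟩ := hVr m
      refine ⟨|a| * M, fun k => ?_⟩
      rw [norm_smul, Real.norm_eq_abs]
      calc ‖vec k‖ ^ m * (|a| * ‖V k‖) = |a| * (‖vec k‖ ^ m * ‖V k‖) := by ring
        _ ≤ _ := mul_le_mul_of_nonneg_left (hM k) (abs_nonneg a)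
    unfold bN
    rw [split V W Z hVr hWr hZr, split _ W Z hVa hWr hZr, k1.smul, k2.smul, bg_smul hm, bT_eq,
      bT_eq]
    have e : (∑' n, trm (fun n => c₀ * lam ^ n) G.ε
        (fun n => pair (fun k => a • V k) (Sy g (fv G.sh G.ty G.ρ true n)))
        (fun n => pair (fun k => a • V k) (Sy g (fv G.sh G.ty G.ρ false n)))
        (fun n => pair W (Sy g (fv G.sh G.ty G.ρ true n)))
        (fun n => pair W (Sy g (fv G.sh G.ty G.ρ false n)))
        (fun n => pair Z (Sy g (fv G.sh G.ty G.ρ true n)))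
        (fun n => pair Z (Sy g (fv G.sh G.ty G.ρ false n))) n) = _ :=
      (tsum_congr fun n => by
        unfold trm
        beta_reduce
        rw [h2.p.smul, h2.q.smul]
        ring).trans (tsum_mul_left (a := a) (f := trm (fun n => c₀ * lam ^ n) G.ε
        (fun n => pair V (Sy g (fv G.sh G.ty G.ρ true n)))
        (fun n => pair V (Sy g (fv G.sh G.ty G.ρ false n)))
        (fun n => pair W (Sy g (fv G.sh G.ty G.ρ true n)))
        (fun n => pair W (Sy g (fv G.sh G.ty G.ρ false n)))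
        (fun n => pair Z (Sy g (fv G.sh G.ty G.ρ true n)))
        (fun n => pair Z (Sy g (fv G.sh G.ty G.ρ false n)))))
    rw [e]
    ring
  · -- skew
    intro V W Z hV hVr hW hWr hZ hZr
    unfold bN
    rw [split V W Z hVr hWr hZr, split V Z W hVr hZr hWr, Gate.skew, Gate.skew (W := W) (Z := Z)
      (r := G.r) (a := fun n => Sy g' (fv G.sh' G.ty' G.ρ' true (n + 1))), bg_skew hm,
      bT_eq, bT_eq]
    have e : (∑' n, trm (fun n => c₀ * lam ^ n) G.ε
        (fun n => pair V (Sy g (fv G.sh G.ty G.ρ true n)))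
        (fun n => pair V (Sy g (fv G.sh G.ty G.ρ false n)))
        (fun n => pair W (Sy g (fv G.sh G.ty G.ρ true n)))
        (fun n => pair W (Sy g (fv G.sh G.ty G.ρ false n)))
        (fun n => pair Z (Sy g (fv G.sh G.ty G.ρ true n)))
        (fun n => pair Z (Sy g (fv G.sh G.ty G.ρ false n))) n) =
        -(∑' n, trm (fun n => c₀ * lam ^ n) G.ε
        (fun n => pair V (Sy g (fv G.sh G.ty G.ρ true n)))
        (fun n => pair V (Sy g (fv G.sh G.ty G.ρ false n)))
        (fun n => pair Z (Sy g (fv G.sh G.ty G.ρ true n)))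
        (fun n => pair Z (Sy g (fv G.sh G.ty G.ρ false n)))
        (fun n => pair W (Sy g (fv G.sh G.ty G.ρ true n)))
        (fun n => pair W (Sy g (fv G.sh G.ty G.ρ false n))) n) := by
      rw [← tsum_neg]
      refine tsum_congr fun n => ?_
      unfold trm
      beta_reduce
      ring
    rw [e]
    ring
  · -- small
    intro V W Z hV hVr hW hWr hZ hZr
    refine (main V W Z hV hVr hW hWr hZ hZr).trans ?_
    have n0 := A1_nonneg s V
    have n1 := A1_nonneg (s - 1) V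
    have n2 := h1_nonneg W
    have n3 := l2_nonneg Z
    have n4 := l2_nonneg W
    have : 0 ≤ A1 s V * l2 W := by positivity
    gcongr
    linarith
  · -- low
    intro V W Z hV hVr hW hWr hZ hZr
    have e1 := bg_low hm hVr hWr hZr
    have e2 := h2.low (ε := G.ε) hd hε hε1 hs1.le hVr hWr hZr
    rw [← bT_eq] at e2
    have e3 := k1.low hVr hWr hZr
    have e4 := k2.low hVr hWr hZr
    unfold bN
    rw [split V W Z hVr hWr hZr]
    refine (abs_add_le _ _).trans ((add_le_add ((abs_add_le _ _).trans (add_le_add e1 e2))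
      ((abs_add_le _ _).trans (add_le_add e3 e4))).trans (le_of_eq ?_))
    ring
  · -- thin1
    intro V W Z hV hVr hW hWr hZ hZr h'
    unfold bN
    rw [split V W Z hVr hWr hZr, k1.thin1 (zero_TT h.m2 h' true),
      k2.thin1 (fun n => zero_TT h.m2 h' true (n + 1)), bg_thin1 hm hb h', bT_eq]
    have e : (∑' n, trm (fun n => c₀ * lam ^ n) G.ε
        (fun n => pair V (Sy g (fv G.sh G.ty G.ρ true n)))
        (fun n => pair V (Sy g (fv G.sh G.ty G.ρ false n)))
        (fun n => pair W (Sy g (fv G.sh G.ty G.ρ true n)))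
        (fun n => pair W (Sy g (fv G.sh G.ty G.ρ false n)))
        (fun n => pair Z (Sy g (fv G.sh G.ty G.ρ true n)))
        (fun n => pair Z (Sy g (fv G.sh G.ty G.ρ false n))) n) = 0 := by
      refine (tsum_congr fun n => ?_).trans tsum_zero
      unfold trm
      beta_reduce
      rw [h2.p.thin n (zero_TT h.m1 h' true n), h2.q.thin n (zero_TT h.m1 h' false n)]
      ring
    rw [e]
    ring
  · -- thin2
    intro V W Z hV hVr hW hWr hZ hZr h' h''
    unfold bN
    rw [split V W Z hVr hWr hZr, k1.thin2 (zero_TT h.m1 h' false) (zero_TT h.m2 h' true),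
      k2.thin2 (fun n => zero_TT h.m2 h' true (n + 1)) (zero_TT h.m2 h' true),
      bg_thin2 hm hb h' h'', bT_eq]
    have e : (∑' n, trm (fun n => c₀ * lam ^ n) G.ε
        (fun n => pair V (Sy g (fv G.sh G.ty G.ρ true n)))
        (fun n => pair V (Sy g (fv G.sh G.ty G.ρ false n)))
        (fun n => pair W (Sy g (fv G.sh G.ty G.ρ true n)))
        (fun n => pair W (Sy g (fv G.sh G.ty G.ρ false n)))
        (fun n => pair Z (Sy g (fv G.sh G.ty G.ρ true n)))
        (fun n => pair Z (Sy g (fv G.sh G.ty G.ρ false n))) n) = 0 := by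
      refine (tsum_congr fun n => ?_).trans tsum_zero
      unfold trm
      beta_reduce
      rw [h2.p.thin n (zero_TT h.m1 h' true n), h2.q.thin n (zero_TT h.m1 h' false n),
        h2.p.thin n (zero_TT h.m1 h'' true n), h2.q.thin n (zero_TT h.m1 h'' false n),
        h2.p.thin (n + 1) (zero_TT h.m1 h' true (n + 1))]
      ring
    rw [e]
    ring

theorem t_OP3 (hT : S_TRI) : S_OP3 := by
  intro G g S R N g' S' R' N' s N₁ δ c₀ lam X hs0 hs1 hδ _ hε h
  exact op3 hT hs0 hs1 hδ hε h h.rx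

end Pool.Agent.K1H63.NU
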