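import Pool.Agent.K1H54.NU.Stm4
import Pool.Agent.K1H63.NU.TREN

/-!
Project NU: continuous dependence of the truncated solutions on the data.
-/

open Set Filter Topology MeasureTheory
open scoped ENNReal NNReal

set_option autoImplicit false

namespace Pool.Agent.K1H63.NU

open Pool.Agent.K1H54.NU

variable (G : GS)

/-- the vector field on the finite dimensional space -/
noncomputable def FF (N : ℕ) (z : EuclideanSpace ℝ (SS G N)) : EuclideanSpace ℝ (SS G N) :=
  WithLp.toLp 2 fun i => -(G.D i * z i) + G.vf (ext G N z) i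

theorem FF_contDiff (N : ℕ) : ContDiff ℝ 1 (FF G N) := by
  rw [contDiff_euclidean]
  intro i
  exact ((contDiff_const.mul (EuclideanSpace.proj (𝕜 := ℝ) i).contDiff).neg).add
    (vf_contDiff G N i)

theorem FF_lip (N : ℕ) (R : ℝ) :
    ∃ K : ℝ≥0, LipschitzOnWith K (FF G N) (Metric.closedBall 0 R) := by
  have hF := FF_contDiff G N
  have hc : Continuous (fderiv ℝ (FF G N)) := hF.continuous_fderiv one_ne_zero
  obtain ⟨C, hC⟩ := (isCompact_closedBall (0 : EuclideanSpace ℝ (SS G N)) R).exists_bound_of_continuousOn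
    hc.continuousOn
  refine ⟨⟨max C 0, le_max_right _ _⟩, ?_⟩
  refine Convex.lipschitzOnWith_of_nnnorm_fderiv_le (𝕜 := ℝ)
    (fun x _ => (hF.differentiable one_ne_zero).differentiableAt) (fun x hx => ?_)
    (convex_closedBall _ _)
  have := (hC x hx).trans (le_max_left C 0)
  exact_mod_cast this

/-- the finite dimensional vector of a truncated state -/
noncomputable def gam (N : ℕ) (y : G.I ⊕ G.J → ℝ) : EuclideanSpace ℝ (SS G N) :=
  WithLp.toLp 2 fun i => y i

variable {G} {N : ℕ}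

theorem ext_gam {y : G.I ⊕ G.J → ℝ} (hy : ∀ i, N < G.s i → y i = 0) : ext G N (gam G N y) = y := by
  funext i
  by_cases hi : i ∈ SS G N
  · exact ext_mem G (gam G N y) ⟨i, hi⟩
  · rw [mem_SS, not_le] at hi
    rw [ext_not G _ hi, hy i hi]

theorem gam_norm (y : G.I ⊕ G.J → ℝ) : ‖gam G N y‖ ^ 2 = ∑ i ∈ SS G N, y i ^ 2 := by
  rw [EuclideanSpace.norm_sq_eq, ← Finset.sum_coe_sort (SS G N)]
  refine Finset.sum_congr rfl fun i _ => ?_
  rw [Real.norm_eq_abs, sq_abs]
  rfl

theorem gam_ode {x : ℝ → G.I ⊕ G.J → ℝ} (hx : G.Tr N x) {t : ℝ} (ht : 0 ≤ t) :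
    HasDerivWithinAt (fun τ => gam G N (x τ)) (FF G N (gam G N (x t))) (Ici 0) t := by
  have h1 : HasDerivWithinAt (fun τ => fun i : SS G N => x τ i)
      (fun i : SS G N => -(G.D i * x t i) + G.vf (x t) i) (Ici 0) t := by
    rw [hasDerivWithinAt_pi]
    intro i
    exact hx.ode i ((mem_SS G).1 i.2) t ht
  have h2 := ((EuclideanSpace.equiv (SS G N) ℝ).symm.toContinuousLinearMap.hasFDerivAt
    (x := fun i : SS G N => x t i)).comp_hasDerivWithinAt t h1
  refine h2.congr_deriv ?_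
  unfold FF
  rw [ext_gam (fun i hi => hx.out t i hi)]
  rfl

theorem gam_le {x : ℝ → G.I ⊕ G.J → ℝ} (hx : G.Tr N x) {t : ℝ} (ht : 0 ≤ t) :
    ‖gam G N (x t)‖ ≤ ‖gam G N (x 0)‖ := by
  have h1 := t_TREN G N x hx 0 t le_rfl ht
  have h2 : G.en (x t) ≤ G.en (x 0) := by
    rw [← h1]
    exact le_self_add
  rw [en_eq G (N := N) fun i hi => hx.out t i hi, en_eq G (N := N) fun i hi => hx.out 0 i hi,
    ENNReal.ofReal_le_ofReal_iff (Finset.sum_nonneg fun i _ => sq_nonneg _), ← gam_norm,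
    ← gam_norm] at h2
  exact (pow_le_pow_iff_left₀ (norm_nonneg _) (norm_nonneg _) two_ne_zero).1 h2

theorem t_CDP : S_CDP := by
  intro G N x hx h0 t ht i
  by_cases hi : i ∈ SS G N
  swap
  · rw [mem_SS, not_le] at hi
    have : (fun θ => x θ t i) = fun _ => 0 := funext fun θ => (hx θ).out t i hi
    rw [this]
    exact continuous_const
  have hc0 : Continuous fun θ => gam G N (x θ 0) := by
    unfold gam
    exact (PiLp.continuous_toLp 2 _).comp (continuous_pi fun j => h0 j)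
  have hc : Continuous fun θ => gam G N (x θ t) := by
    rw [continuous_iff_continuousAt]
    intro θ₀
    obtain ⟨R, hR⟩ : ∃ R, R = ‖gam G N (x θ₀ 0)‖ + 1 := ⟨_, rfl⟩
    obtain ⟨K, hK⟩ := FF_lip G N R
    have hev : ∀ᶠ θ in 𝓝 θ₀, ‖gam G N (x θ 0)‖ < R := by
      refine (hc0.norm.continuousAt (x := θ₀)).eventually_lt continuousAt_const ?_
      rw [hR]
      linarith
    have hmem : ∀ θ, ‖gam G N (x θ 0)‖ < R → ∀ τ, 0 ≤ τ →
        gam G N (x θ τ) ∈ Metric.closedBall (0 : EuclideanSpace ℝ (SS G N)) R := by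
      intro θ hθ τ hτ
      rw [mem_closedBall_zero_iff]
      exact (gam_le (hx θ) hτ).trans hθ.le
    have hcont : ∀ θ, ContinuousOn (fun τ => gam G N (x θ τ)) (Icc 0 t) := fun θ τ hτ =>
      ((gam_ode (hx θ) hτ.1).continuousWithinAt).mono fun u hu => hu.1
    have hd : ∀ θ, ∀ τ ∈ Ico 0 t, HasDerivWithinAt (fun τ => gam G N (x θ τ))
        (FF G N (gam G N (x θ τ))) (Ici τ) τ := fun θ τ hτ =>
      (gam_ode (hx θ) hτ.1).mono fun u hu => hτ.1.trans hu
    have hb : ∀ᶠ θ in 𝓝 θ₀, dist (gam G N (x θ t)) (gam G N (x θ₀ t)) ≤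
        dist (gam G N (x θ 0)) (gam G N (x θ₀ 0)) * Real.exp (K * (t - 0)) := by
      filter_upwards [hev] with θ hθ
      exact dist_le_of_trajectories_ODE_of_mem (v := fun _ => FF G N)
        (s := fun _ => Metric.closedBall 0 R) (fun _ _ => hK) (hcont θ) (hd θ)
        (fun τ hτ => hmem θ hθ τ hτ.1) (hcont θ₀) (hd θ₀)
        (fun τ hτ => hmem θ₀ (by rw [hR]; linarith) τ hτ.1) le_rfl t ⟨ht, le_rfl⟩
    have hl : Tendsto (fun θ => dist (gam G N (x θ 0)) (gam G N (x θ₀ 0)) *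
        Real.exp (K * (t - 0))) (𝓝 θ₀) (𝓝 0) := by
      have h1 := ((hc0.dist continuous_const).mul continuous_const).tendsto' (x := θ₀)
        (f := fun θ => dist (gam G N (x θ 0)) (gam G N (x θ₀ 0)) * Real.exp (K * (t - 0)))
        (y := 0) (by simp)
      exact h1
    exact tendsto_iff_dist_tendsto_zero.2
      (squeeze_zero' (Eventually.of_forall fun _ => dist_nonneg) hb hl)
  exact ((EuclideanSpace.proj (𝕜 := ℝ) (⟨i, hi⟩ : SS G N)).continuous).comp hc

end Pool.Agent.K1H63.NU
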