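import Pool.Agent.K1H30.OP2.Fin2

/-! Sequences of gates. -/

open Set Filter Topology MeasureTheory

set_option autoImplicit false

namespace Pool.Agent.K1H63.NU

open Pool.Agent.Y5 Pool.Agent.Y5.D Pool.Agent.Y5.E Pool.Agent.K1H54.LO Pool.Agent.K1H54.L2
open Pool.Agent.K1H30.OP2
open Pool.Agent.K1H30.OP (rap_bd rap_sum rap_sq sum0 sum1 sq0 sq1 bd0 sumr l2_nonneg h1_nonneg
  A1_nonneg cs psum rap_add rap_neg ot_add ot_neg pair_add pair_neg dsum)

/-- the terms of a sequence of gates -/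
noncomputable def gtm (r : ℕ → ℝ) (a b c : ℕ → Fam) (V W Z : Fam) (n : ℕ) : ℝ :=
  r n * (pair V (a n) * (pair W (b n) * pair Z (c n) - pair W (c n) * pair Z (b n)))

/-- what is used of a sequence of gates -/
structure Gate (δ s X L : ℝ) (r Na Nb Nc : ℕ → ℝ) (Ta Tb Tc : ℕ → Finset Z3)
    (a b c : ℕ → Fam) : Prop where
  ha : PP δ s r Na Ta a
  hb : PP δ s (fun _ => 0) Nb Tb b
  hc : PP δ s (fun _ => 0) Nc Tc c
  X0 : 0 ≤ X
  ab : ∀ n, Na n ≤ X * Nb n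
  ac : ∀ n, Na n ≤ X * Nc n
  ba : ∀ n, Nb n ≤ Na n
  ca : ∀ n, Nc n ≤ Na n
  mb : ∀ n, Nb n ≤ Nb (n + 1)
  mc : ∀ n, Nc n ≤ Nc (n + 1)
  L0 : 0 ≤ L
  lb : ∀ n k, r n * ‖b n k‖ ≤ L * Nb n
  lc : ∀ n k, r n * ‖c n k‖ ≤ L * Nc n

variable {δ s X L : ℝ} {r Na Nb Nc : ℕ → ℝ} {Ta Tb Tc : ℕ → Finset Z3} {a b c : ℕ → Fam}
  {V V' W Z : Fam}

/-- two sums -/
theorem two {a1 b1 a2 b2 : ℕ → ℝ} {X Y K : ℝ} (hK : 0 ≤ K) (t : ℕ → ℝ)
    (A1 : Summable (fun n => a1 n ^ 2) ∧ √(∑' n, a1 n ^ 2) ≤ X)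
    (A2 : Summable (fun n => a2 n ^ 2) ∧ √(∑' n, a2 n ^ 2) ≤ X)
    (B1 : Summable (fun n => b1 n ^ 2) ∧ √(∑' n, b1 n ^ 2) ≤ Y)
    (B2 : Summable (fun n => b2 n ^ 2) ∧ √(∑' n, b2 n ^ 2) ≤ Y)
    (ht : ∀ n, |t n| ≤ K * (|a1 n| * |b1 n| + |a2 n| * |b2 n|)) :
    Summable t ∧ |∑' n, t n| ≤ 2 * K * (X * Y) := by
  have hX : 0 ≤ X := (Real.sqrt_nonneg _).trans A1.2
  have key : ∀ {a b : ℕ → ℝ}, (Summable (fun n => a n ^ 2) ∧ √(∑' n, a n ^ 2) ≤ X) →
      (Summable (fun n => b n ^ 2) ∧ √(∑' n, b n ^ 2) ≤ Y) →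
      Summable (fun n => |a n| * |b n|) ∧ ∑' n, |a n| * |b n| ≤ X * Y := by
    intro a b ha hb
    have h := cs ha.1 hb.1
    exact ⟨h.1, h.2.trans (mul_le_mul ha.2 hb.2 (Real.sqrt_nonneg _) hX)⟩
  obtain ⟨s1, t1⟩ := key A1 B1
  obtain ⟨s2, t2⟩ := key A2 B2
  have s := (s1.add s2).mul_left K
  have st : Summable t := Summable.of_norm_bounded s fun n => ht n
  refine ⟨st, ?_⟩
  rw [← Real.norm_eq_abs]
  refine (norm_tsum_le_tsum_norm st.norm).trans ?_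
  refine (st.norm.tsum_le_tsum (fun n => ht n) s).trans ?_
  rw [tsum_mul_left, s1.tsum_add s2]
  calc K * _ ≤ K * (X * Y + X * Y) := by gcongr
    _ = _ := by ring

namespace Gate

theorem small (h : Gate δ s X L r Na Nb Nc Ta Tb Tc a b c) (hδ : 0 ≤ δ) (hs0 : 1 / 2 ≤ s)
    (hs : s ≤ 1) (hV : Rap V) (hW : Rap W) (hZ : Rap Z) :
    Summable (gtm r a b c V W Z) ∧ |∑' n, gtm r a b c V W Z n| ≤
      2 * (X * (3 / 2 * δ * A1 (s - 1) V)) * (h1 W * l2 Z) := by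
  have hA := A1_nonneg (s - 1) V
  have hX := h.X0
  refine two (a1 := fun n => Nb n * pair W (b n)) (b1 := fun n => pair Z (c n))
    (a2 := fun n => Nc n * pair W (c n)) (b2 := fun n => pair Z (b n)) (by positivity) _
    (h.hb.bes1 hW) (h.hc.bes1 hW) (h.hc.bes hZ) (h.hb.bes hZ) fun n => ?_
  have e1 := h.ha.co2 hδ hs0 hs hV n
  have r0 := h.ha.c0 n
  have hb1 := h.hb.N1 n
  have hc1 := h.hc.N1 n
  set K := 3 / 2 * δ * A1 (s - 1) V with hK
  have hK0 : 0 ≤ K := by positivity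
  have e2 : r n * |pair V (a n)| ≤ (X * K) * Nb n := by
    refine e1.trans ?_
    calc K * Na n ≤ K * (X * Nb n) := by gcongr; exact h.ab n
      _ = _ := by ring
  have e3 : r n * |pair V (a n)| ≤ (X * K) * Nc n := by
    refine e1.trans ?_
    calc K * Na n ≤ K * (X * Nc n) := by gcongr; exact h.ac n
      _ = _ := by ring
  unfold gtm
  rw [abs_mul, abs_mul, abs_of_nonneg r0, ← mul_assoc]
  simp only [abs_mul, abs_of_nonneg (by linarith : (0 : ℝ) ≤ Nb n),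
    abs_of_nonneg (by linarith : (0 : ℝ) ≤ Nc n)]
  calc r n * |pair V (a n)| * |pair W (b n) * pair Z (c n) - pair W (c n) * pair Z (b n)|
      ≤ r n * |pair V (a n)| * (|pair W (b n)| * |pair Z (c n)| +
        |pair W (c n)| * |pair Z (b n)|) := by
        refine mul_le_mul_of_nonneg_left ?_ (by positivity)
        refine (abs_sub _ _).trans ?_
        rw [abs_mul, abs_mul]
    _ = r n * |pair V (a n)| * (|pair W (b n)| * |pair Z (c n)|) +
        r n * |pair V (a n)| * (|pair W (c n)| * |pair Z (b n)|) := by ring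
    _ ≤ (X * K) * Nb n * (|pair W (b n)| * |pair Z (c n)|) +
        (X * K) * Nc n * (|pair W (c n)| * |pair Z (b n)|) := by gcongr
    _ = _ := by ring

theorem cL {N : ℕ → ℝ} {T : ℕ → Finset Z3} {φ : ℕ → Fam} (h : PP δ s (fun _ => 0) N T φ)
    (hr : ∀ n, 0 ≤ r n) (hL : 0 ≤ L) (hl : ∀ n k, r n * ‖φ n k‖ ≤ L * N n) (hW : Rap W) (n : ℕ) :
    r n * |pair W (φ n)| ≤ L * A1 1 W := by
  have hN := h.N1 n
  rw [h.pr]
  calc r n * |∑ k ∈ T n, (inner ℝ (W k) (φ n k) : ℝ)|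
      ≤ r n * ∑ k ∈ T n, ‖W k‖ * ‖φ n k‖ := by
        refine mul_le_mul_of_nonneg_left ?_ (hr n)
        exact (Finset.abs_sum_le_sum_abs _ _).trans
          (Finset.sum_le_sum fun k _ => abs_real_inner_le_norm _ _)
    _ = ∑ k ∈ T n, ‖W k‖ * (r n * ‖φ n k‖) := by
        rw [Finset.mul_sum]
        exact Finset.sum_congr rfl fun k _ => by ring
    _ ≤ ∑ k ∈ T n, L * (‖vec k‖ ^ (1 : ℝ) * ‖W k‖) := by
        refine Finset.sum_le_sum fun k hk => ?_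
        have h1 := (h.size n k hk).1
        rw [Real.rpow_one]
        calc ‖W k‖ * (r n * ‖φ n k‖) ≤ ‖W k‖ * (L * ‖vec k‖) := by
              refine mul_le_mul_of_nonneg_left ((hl n k).trans ?_) (norm_nonneg _)
              gcongr
          _ = _ := by ring
    _ = L * ∑ k ∈ T n, ‖vec k‖ ^ (1 : ℝ) * ‖W k‖ := by rw [Finset.mul_sum]
    _ ≤ _ := by
        refine mul_le_mul_of_nonneg_left ?_ hL
        exact (sumr hW le_rfl).sum_le_tsum _ fun _ _ => by positivity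

theorem low (h : Gate δ s X L r Na Nb Nc Ta Tb Tc a b c) (hV : Rap V) (hW : Rap W)
    (hZ : Rap Z) : |∑' n, gtm r a b c V W Z n| ≤ 2 * (L * A1 1 W) * (l2 V * l2 Z) := by
  have hA := A1_nonneg 1 W
  have hL := h.L0
  refine (two (a1 := fun n => pair V (a n)) (b1 := fun n => pair Z (c n))
    (a2 := fun n => pair V (a n)) (b2 := fun n => pair Z (b n)) (by positivity) _
    (h.ha.bes hV) (h.ha.bes hV) (h.hc.bes hZ) (h.hb.bes hZ) fun n => ?_).2
  have r0 := h.ha.c0 n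
  have e2 := cL h.hb h.ha.c0 hL h.lb hW n
  have e3 := cL h.hc h.ha.c0 hL h.lc hW n
  unfold gtm
  rw [abs_mul, abs_mul, abs_of_nonneg r0]
  calc r n * (|pair V (a n)| * |pair W (b n) * pair Z (c n) - pair W (c n) * pair Z (b n)|)
      ≤ r n * (|pair V (a n)| * (|pair W (b n)| * |pair Z (c n)| +
        |pair W (c n)| * |pair Z (b n)|)) := by
        refine mul_le_mul_of_nonneg_left (mul_le_mul_of_nonneg_left ?_ (abs_nonneg _)) r0
        refine (abs_sub _ _).trans ?_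
        rw [abs_mul, abs_mul]
    _ = (r n * |pair W (b n)|) * (|pair V (a n)| * |pair Z (c n)|) +
        (r n * |pair W (c n)|) * (|pair V (a n)| * |pair Z (b n)|) := by ring
    _ ≤ (L * A1 1 W) * (|pair V (a n)| * |pair Z (c n)|) +
        (L * A1 1 W) * (|pair V (a n)| * |pair Z (b n)|) := by gcongr
    _ = _ := by ring

theorem add (h : Gate δ s X L r Na Nb Nc Ta Tb Tc a b c) (hδ : 0 ≤ δ) (hs0 : 1 / 2 ≤ s)
    (hs : s ≤ 1) (hV : Rap V) (hV' : Rap V') (hW : Rap W) (hZ : Rap Z) :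
    ∑' n, gtm r a b c (fun k => V k + V' k) W Z n =
      ∑' n, gtm r a b c V W Z n + ∑' n, gtm r a b c V' W Z n := by
  have s1 := (h.small hδ hs0 hs hV hW hZ).1
  have s2 := (h.small hδ hs0 hs hV' hW hZ).1
  rw [← s1.tsum_add s2]
  refine tsum_congr fun n => ?_
  unfold gtm
  rw [h.ha.add]
  ring

theorem smul (h : Gate δ s X L r Na Nb Nc Ta Tb Tc a b c) (x : ℝ) (V W Z : Fam) :
    ∑' n, gtm r a b c (fun k => x • V k) W Z n = x * ∑' n, gtm r a b c V W Z n := by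
  rw [← tsum_mul_left]
  refine tsum_congr fun n => ?_
  unfold gtm
  rw [h.ha.smul]
  ring

theorem skew (r : ℕ → ℝ) (a b c : ℕ → Fam) (V W Z : Fam) :
    ∑' n, gtm r a b c V W Z n = -∑' n, gtm r a b c V Z W n := by
  rw [← tsum_neg]
  refine tsum_congr fun n => ?_
  unfold gtm
  ring

theorem thin1 (h : Gate δ s X L r Na Nb Nc Ta Tb Tc a b c) (hV : ∀ n, ∀ k ∈ Ta n, V k = 0) :
    ∑' n, gtm r a b c V W Z n = 0 := by
  refine (tsum_congr fun n => ?_).trans tsum_zero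
  unfold gtm
  rw [h.ha.thin n (hV n)]
  ring

theorem thin2 (h : Gate δ s X L r Na Nb Nc Ta Tb Tc a b c) (hb : ∀ n, ∀ k ∈ Tb n, W k = 0)
    (hc : ∀ n, ∀ k ∈ Tc n, W k = 0) : ∑' n, gtm r a b c V W Z n = 0 := by
  refine (tsum_congr fun n => ?_).trans tsum_zero
  unfold gtm
  rw [h.hb.thin n (hb n), h.hc.thin n (hc n)]
  ring

/-- rapid decay of the coefficients -/
theorem wco (h : PP δ s r Na Ta a) (hδ : 0 ≤ δ) (hs : s ≤ 1) (hV : Rap V) (j : ℕ) :
    Summable (fun n => Na n ^ j * (r n * |pair V (a n)|)) := by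
  have h1 := ((dsum h.disj (f := fun k => (1 + ‖vec k‖) ^ (j + 1) * ‖V k‖)
    (fun _ => by positivity) (rap_sum hV (j + 1))).1).mul_left δ
  refine Summable.of_nonneg_of_le (fun n => ?_) (fun n => ?_) h1
  · have := h.N1 n
    have := h.c0 n
    positivity
  · have hN := h.N1 n
    have e1 := h.co V n
    have e2 : Na n ^ s ≤ Na n := by
      calc Na n ^ s ≤ Na n ^ (1 : ℝ) := Real.rpow_le_rpow_of_exponent_le hN hs
        _ = _ := Real.rpow_one _
    calc Na n ^ j * (r n * |pair V (a n)|) ≤ Na n ^ j * (δ * (Na n ^ s * ∑ k ∈ Ta n, ‖V k‖)) := by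
          gcongr
      _ ≤ Na n ^ j * (δ * (Na n * ∑ k ∈ Ta n, ‖V k‖)) := by
          gcongr
      _ = δ * (∑ k ∈ Ta n, Na n ^ (j + 1) * ‖V k‖) := by
          rw [← Finset.mul_sum, pow_succ]
          ring
      _ ≤ _ := by
          refine mul_le_mul_of_nonneg_left (Finset.sum_le_sum fun k hk => ?_) hδ
          have h5 := (h.size n k hk).1
          gcongr
          linarith

/-- the field of a sequence of packets -/
theorem fld {N : ℕ → ℝ} {T : ℕ → Finset Z3} {φ : ℕ → Fam} (h : PP δ s (fun _ => 0) N T φ)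
    (hN : ∀ n, N n ≤ N (n + 1)) {α : ℕ → ℝ} (ha : ∀ M : ℕ, Summable fun n => |α n| * N n ^ M) :
    ∃ G, OT G ∧ Rap G ∧ ∀ Z, Rap Z →
      Summable (fun n => α n * pair Z (φ n)) ∧ pair G Z = ∑' n, α n * pair Z (φ n) := by
  have h2 : P2 δ s (fun _ => 0) N T T φ φ := ⟨h, h, hN, fun _ => le_rfl⟩
  have hs : ∀ M : ℕ, Summable (fun n => |α n| * N n ^ M + |(0 : ℝ)| * N n ^ M +
      |(0 : ℝ)| * N (n + 1) ^ M) := by
    intro M
    simpa using ha M
  refine ⟨GT α (fun _ => 0) (fun _ => 0) φ φ, gt_ot h2 hs, gt_rap h2 hs, fun Z hZ => ⟨?_, ?_⟩⟩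
  · have s0 := (ha 0).mul_left (l2 Z)
    refine Summable.of_norm_bounded s0 fun n => ?_
    rw [Real.norm_eq_abs, abs_mul, pow_zero, mul_one, mul_comm]
    exact mul_le_mul_of_nonneg_right (h.leL hZ n) (abs_nonneg _)
  · rw [gt_pair h2 hs hZ]
    refine tsum_congr fun n => ?_
    ring

theorem range (h : Gate δ s X L r Na Nb Nc Ta Tb Tc a b c) (hδ : 0 ≤ δ) (hs : s ≤ 1)
    (hV : Rap V) (hW : Rap W) :
    ∃ G, OT G ∧ Rap G ∧ ∀ Z, OT Z → Rap Z → ∑' n, gtm r a b c V W Z n = pair G Z := by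
  have key : ∀ {N : ℕ → ℝ} {T : ℕ → Finset Z3} {φ : ℕ → Fam}, PP δ s (fun _ => 0) N T φ →
      ∀ {N' : ℕ → ℝ} {T' : ℕ → Finset Z3} {χ : ℕ → Fam}, PP δ s (fun _ => 0) N' T' χ →
      (∀ n, N' n ≤ Na n) → ∀ M : ℕ,
      Summable fun n => |r n * pair V (a n) * pair W (φ n)| * N' n ^ M := by
    intro N T φ hφ N' T' χ hχ hN' M
    have s0 := (wco h.ha hδ hs hV M).mul_left (l2 W)
    refine Summable.of_nonneg_of_le (fun n => ?_) (fun n => ?_) s0
    · have := hχ.N1 n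
      positivity
    · have h1 := hχ.N1 n
      have h2 := h.ha.N1 n
      have r0 := h.ha.c0 n
      have h3 := hφ.leL hW n
      have h4 := l2_nonneg W
      rw [abs_mul, abs_mul, abs_of_nonneg r0]
      calc r n * |pair V (a n)| * |pair W (φ n)| * N' n ^ M
          ≤ r n * |pair V (a n)| * l2 W * Na n ^ M := by
            gcongr
            exact hN' n
        _ = _ := by ring
  obtain ⟨G1, o1, r1, p1⟩ := fld h.hc h.mc (α := fun n => r n * pair V (a n) * pair W (b n))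
    (key h.hb h.hc h.ca)
  obtain ⟨G2, o2, r2, p2⟩ := fld h.hb h.mb (α := fun n => r n * pair V (a n) * pair W (c n))
    (key h.hc h.hb h.ba)
  refine ⟨fun k => G1 k + (fun k => -G2 k) k, ot_add o1 (ot_neg o2), rap_add r1 (rap_neg r2),
    fun Z hZ hZr => ?_⟩
  rw [pair_add r1 (rap_neg r2) hZr, pair_neg, (p1 Z hZr).2, (p2 Z hZr).2, ← sub_eq_add_neg,
    ← (p1 Z hZr).1.tsum_sub (p2 Z hZr).1]
  refine tsum_congr fun n => ?_
  unfold gtm
  ring

end Gate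

end Pool.Agent.K1H63.NU
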