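import Pool.Agent.K1H54.NU.Stm3

/-! The inequality of Gronwall for bounded measurable functions. -/

open Set Filter Topology MeasureTheory

set_option autoImplicit false

namespace Pool.Agent.K1H63.NU

open Pool.Agent.K1H54.NU (S_GRW)

theorem t_GRW : S_GRW := by
  intro C M T f hC hf hm hg t ht
  have hM : 0 ≤ M := (hf t ht).1.trans (hf t ht).2
  have hi : ∀ t ∈ Icc 0 T, IntervalIntegrable f volume 0 t := by
    intro t ht
    rw [intervalIntegrable_iff_integrableOn_Icc_of_le ht.1]
    have hs : Icc 0 t ⊆ Icc 0 T := Icc_subset_Icc_right ht.2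
    refine Integrable.of_bound (hm.mono_measure ?_) M ?_
    · exact Measure.restrict_mono hs le_rfl
    · rw [ae_restrict_iff' measurableSet_Icc]
      refine Eventually.of_forall fun x hx => ?_
      rw [Real.norm_eq_abs, abs_of_nonneg (hf x (hs hx)).1]
      exact (hf x (hs hx)).2
  have key : ∀ n : ℕ, ∀ t ∈ Icc 0 T, f t ≤ M * ((C * t) ^ n / (n.factorial : ℝ)) := by
    intro n
    induction n with
    | zero =>
      intro t ht
      simpa using (hf t ht).2
    | succ n ih =>
      intro t ht
      have h1 : ∫ τ in (0 : ℝ)..t, f τ ≤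
          ∫ τ in (0 : ℝ)..t, M * C ^ n / (n.factorial : ℝ) * τ ^ n := by
        refine intervalIntegral.integral_mono_on ht.1 (hi t ht) ?_ fun x hx => ?_
        · exact Continuous.intervalIntegrable (by fun_prop) _ _
        · refine (ih x ⟨hx.1, hx.2.trans ht.2⟩).trans (le_of_eq ?_)
          rw [mul_pow]
          ring
      have h2 : ∫ τ in (0 : ℝ)..t, M * C ^ n / (n.factorial : ℝ) * τ ^ n =
          M * C ^ n / (n.factorial : ℝ) * (t ^ (n + 1) / (n + 1)) := by
        rw [intervalIntegral.integral_const_mul, integral_pow]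
        simp
      refine (hg t ht).trans ((mul_le_mul_of_nonneg_left (h1.trans (le_of_eq h2)) hC).trans
        (le_of_eq ?_))
      rw [Nat.factorial_succ]
      have h3 : (n.factorial : ℝ) ≠ 0 := by exact_mod_cast n.factorial_ne_zero
      have h4 : (n : ℝ) + 1 ≠ 0 := by positivity
      push_cast
      field_simp
      ring
  have hl : Tendsto (fun n : ℕ => M * ((C * t) ^ n / (n.factorial : ℝ))) atTop (𝓝 0) := by
    have := (FloorSemiring.tendsto_pow_div_factorial_atTop (C * t)).const_mul M
    rwa [mul_zero] at this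
  exact le_antisymm (ge_of_tendsto' hl fun n => key n t ht) (hf t ht).1

end Pool.Agent.K1H63.NU
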